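import Mathlib

/-!
# The property `S_1(Γ, Ω)` of sets of reals is hereditary for `F_σ` subsets

Let `Y = ⋃ (X ∩ K m)` with `K m` closed and increasing, and let `𝒰 n` be open γ-covers of `Y`.
Split the sequence `𝒰 n` into infinitely many subsequences, one for each `m`. If some member `U` of
some cover of the `m`-th subsequence contains `X ∩ K m`, then pick it. Otherwise the sets
`U ∪ (X \ K m)` form γ-covers of `X`, and `S_1(Γ, Ω)` for `X` gives members of the covers of the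
`m`-th subsequence such that every finite subset of `X ∩ K m` lies in one of them.
-/

set_option autoImplicit false

namespace Pool.Agent.Results.MP_26524f_gt.SOneGammaOmega

/-- `𝒰` is an open cover of the set of reals `X`: its members are relatively open subsets of `X`,
`X` is not a member, and the members cover `X`. -/
def IsOpenCover (X : Set ℝ) (𝒰 : Set (Set ℝ)) : Prop :=
  (∀ U ∈ 𝒰, ∃ V : Set ℝ, IsOpen V ∧ U = V ∩ X) ∧ X ∉ 𝒰 ∧ X ⊆ ⋃₀ 𝒰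

/-- open γ-covers: infinite, every point lies in all but finitely many members -/
def IsGammaCover (X : Set ℝ) (𝒰 : Set (Set ℝ)) : Prop :=
  IsOpenCover X 𝒰 ∧ 𝒰.Infinite ∧ ∀ x ∈ X, {U ∈ 𝒰 | x ∉ U}.Finite

/-- open ω-covers: every finite subset of `X` lies in some member -/
def IsOmegaCover (X : Set ℝ) (𝒰 : Set (Set ℝ)) : Prop :=
  IsOpenCover X 𝒰 ∧ ∀ F : Set ℝ, F.Finite → F ⊆ X → ∃ U ∈ 𝒰, F ⊆ U

/-- The property `S_1(Γ, Ω)`. -/
def SOne (X : Set ℝ) : Prop :=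
  ∀ 𝒰 : ℕ → Set (Set ℝ), (∀ n, IsGammaCover X (𝒰 n)) →
    ∃ U : ℕ → Set ℝ, (∀ n, U n ∈ 𝒰 n) ∧ IsOmegaCover X (Set.range U)

theorem lift_cov {X Y K : Set ℝ} (hYX : Y ⊆ X) (hK : IsClosed K) (hXK : X ∩ K ⊆ Y)
    {𝒰 : Set (Set ℝ)} (h𝒰 : IsGammaCover Y 𝒰) (hno : ∀ U ∈ 𝒰, ¬ X ∩ K ⊆ U) :
    IsGammaCover X ((fun U => U ∪ (X \ K)) '' 𝒰) := by
  obtain ⟨⟨h1, h2, h3⟩, h4, h5⟩ := h𝒰
  refine ⟨⟨?_, ?_, ?_⟩, ?_, ?_⟩
  · rintro _ ⟨U, hU, rfl⟩
    obtain ⟨V, hV, rfl⟩ := h1 U hU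
    refine ⟨V ∪ Kᶜ, hV.union hK.isOpen_compl, ?_⟩
    ext x
    simp only [Set.mem_union, Set.mem_inter_iff, Set.mem_sdiff, Set.mem_compl_iff]
    constructor
    · rintro (⟨hx, hy⟩ | ⟨hx, hy⟩)
      · exact ⟨Or.inl hx, hYX hy⟩
      · exact ⟨Or.inr hy, hx⟩
    · rintro ⟨hx | hx, hy⟩
      · by_cases hk : x ∈ K
        · exact Or.inl ⟨hx, hXK ⟨hy, hk⟩⟩
        · exact Or.inr ⟨hy, hk⟩
      · exact Or.inr ⟨hy, hx⟩
  · rintro ⟨U, hU, hUX⟩
    refine hno U hU ?_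
    rintro x ⟨hx, hk⟩
    have : x ∈ U ∪ (X \ K) := by
      have h := hUX.ge hx
      exact h
    rcases this with h | h
    · exact h
    · exact absurd hk h.2
  · intro x hx
    by_cases hk : x ∈ K
    · obtain ⟨U, hU, hxU⟩ := h3 (hXK ⟨hx, hk⟩)
      exact ⟨_, ⟨U, hU, rfl⟩, Or.inl hxU⟩
    · obtain ⟨U, hU⟩ := h4.nonempty
      exact ⟨_, ⟨U, hU, rfl⟩, Or.inr ⟨hx, hk⟩⟩
  · intro hfin
    refine h4 (Set.Finite.of_finite_fibers _ hfin ?_)
    rintro _ ⟨U₀, hU₀, rfl⟩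
    obtain ⟨x, ⟨hx, hk⟩, hxU⟩ := Set.not_subset.1 (hno U₀ hU₀)
    refine (h5 x (hXK ⟨hx, hk⟩)).subset ?_
    rintro U ⟨hU, hUe⟩
    refine ⟨hU, fun hxU' => ?_⟩
    have h : x ∈ U₀ ∪ (X \ K) := by
      have h' : U ∪ (X \ K) = U₀ ∪ (X \ K) := hUe
      rw [← h']
      exact Or.inl hxU'
    rcases h with h | h
    · exact hxU h
    · exact h.2 hk
  · intro x hx
    by_cases hk : x ∈ K
    · refine ((h5 x (hXK ⟨hx, hk⟩)).image (fun U => U ∪ (X \ K))).subset ?_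
      rintro _ ⟨⟨U, hU, rfl⟩, hxU⟩
      exact ⟨U, ⟨hU, fun h => hxU (Or.inl h)⟩, rfl⟩
    · convert Set.finite_empty
      rw [Set.eq_empty_iff_forall_notMem]
      rintro _ ⟨⟨U, hU, rfl⟩, hxU⟩
      exact hxU (Or.inr ⟨hx, hk⟩)

theorem stage {X Y K : Set ℝ} (hYX : Y ⊆ X) (hK : IsClosed K) (hXK : X ∩ K ⊆ Y)
    (hX : SOne X) (𝒰 : ℕ → Set (Set ℝ)) (h𝒰 : ∀ n, IsGammaCover Y (𝒰 n)) :
    ∃ U : ℕ → Set ℝ, (∀ n, U n ∈ 𝒰 n) ∧
      ∀ F : Set ℝ, F.Finite → F ⊆ X ∩ K → ∃ n, F ⊆ U n := by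
  by_cases hno : ∀ n, ∀ U ∈ 𝒰 n, ¬ X ∩ K ⊆ U
  · obtain ⟨W, hW, -, hF⟩ := hX (fun n => (fun U => U ∪ (X \ K)) '' 𝒰 n)
      (fun n => lift_cov hYX hK hXK (h𝒰 n) (hno n))
    choose U hU hUW using hW
    refine ⟨U, hU, fun F hFf hFK => ?_⟩
    obtain ⟨_, ⟨n, rfl⟩, hn⟩ := hF F hFf (hFK.trans Set.inter_subset_left)
    refine ⟨n, fun x hx => ?_⟩
    have h := hn hx
    rw [← hUW n] at h
    rcases h with h | h
    · exact h
    · exact absurd (hFK hx).2 h.2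
  · push Not at hno
    obtain ⟨n, U, hU, hKU⟩ := hno
    have hne : ∀ k, ∃ V, V ∈ 𝒰 k := fun k => (h𝒰 k).2.1.nonempty
    choose V hV using hne
    refine ⟨fun k => if k = n then U else V k, fun k => ?_, fun F _ hF => ⟨n, ?_⟩⟩
    · by_cases h : k = n
      · subst h
        simpa using hU
      · simpa [h] using hV k
    · simpa using hF.trans hKU

/-- **`S_1(Γ, Ω)` is hereditary for `F_σ` subsets**: if the set of reals `X` has the property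
`S_1(Γ, Ω)` and `Y` is a countable union of relatively closed subsets of `X`, then `Y` has the
property `S_1(Γ, Ω)`. -/
theorem result : ∀ X Y : Set ℝ,
    (∃ K : ℕ → Set ℝ, (∀ n, IsClosed (K n)) ∧ Y = ⋃ n, X ∩ K n) → SOne X → SOne Y := by
  rintro X Y ⟨K, hK, hY⟩ hX 𝒰 h𝒰
  have hYX : Y ⊆ X := by
    rw [hY]
    exact Set.iUnion_subset fun n => Set.inter_subset_left
  let C : ℕ → Set ℝ := fun m => ⋃ i ∈ Finset.range (m + 1), K i
  have hC : ∀ m, IsClosed (C m) := fun m => isClosed_biUnion_finset fun i _ => hK i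
  have hXC : ∀ m, X ∩ C m ⊆ Y := by
    rintro m x ⟨hx, hxC⟩
    simp only [C, Set.mem_iUnion] at hxC
    obtain ⟨i, _, hi⟩ := hxC
    rw [hY]
    exact Set.mem_iUnion.2 ⟨i, hx, hi⟩
  have hmono : ∀ m m', m ≤ m' → C m ⊆ C m' := by
    intro m m' h x hx
    simp only [C, Set.mem_iUnion] at hx ⊢
    obtain ⟨i, hi, hxi⟩ := hx
    exact ⟨i, Finset.mem_range.2 (lt_of_lt_of_le (Finset.mem_range.1 hi) (by omega)), hxi⟩
  have hst := fun m => stage hYX (hC m) (hXC m) hX (fun j => 𝒰 (Nat.pair m j))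
    (fun j => h𝒰 (Nat.pair m j))
  choose U hU hF using hst
  have hmem : ∀ n, U n.unpair.1 n.unpair.2 ∈ 𝒰 n := by
    intro n
    have := hU n.unpair.1 n.unpair.2
    rwa [Nat.pair_unpair] at this
  have hcov : ∀ F : Set ℝ, F.Finite → F ⊆ Y →
      ∃ V ∈ Set.range (fun n : ℕ => U n.unpair.1 n.unpair.2), F ⊆ V := by
    intro F hFf hFY
    have hm : ∃ m, F ⊆ X ∩ C m := by
      induction F, hFf using Set.Finite.induction_on with
      | empty => exact ⟨0, Set.empty_subset _⟩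
      | @insert a F ha hFf ih =>
        rw [Set.insert_subset_iff] at hFY
        obtain ⟨m, hm⟩ := ih hFY.2
        have ha' := hFY.1
        rw [hY] at ha'
        obtain ⟨i, haX, hi⟩ := Set.mem_iUnion.1 ha'
        refine ⟨max m i, ?_⟩
        rw [Set.insert_subset_iff]
        refine ⟨⟨haX, ?_⟩, hm.trans (Set.inter_subset_inter_right _ (hmono _ _ (le_max_left _ _)))⟩
        simp only [C, Set.mem_iUnion]
        exact ⟨i, Finset.mem_range.2 (by omega), hi⟩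
    obtain ⟨m, hm⟩ := hm
    obtain ⟨j, hj⟩ := hF m F hFf hm
    refine ⟨U m j, ⟨Nat.pair m j, ?_⟩, hj⟩
    simp only [Nat.unpair_pair]
  refine ⟨fun n => U n.unpair.1 n.unpair.2, hmem, ⟨⟨?_, ?_, ?_⟩, hcov⟩⟩
  · rintro _ ⟨n, rfl⟩
    exact (h𝒰 n).1.1 _ (hmem n)
  · rintro ⟨n, hn⟩
    exact (h𝒰 n).1.2.1 (hn ▸ hmem n)
  · intro y hy
    obtain ⟨V, hV, hyV⟩ := hcov {y} (Set.finite_singleton y) (by simpa using hy)
    exact ⟨V, hV, hyV (by simp)⟩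

end Pool.Agent.Results.MP_26524f_gt.SOneGammaOmega
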